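import Pool.Agent.K9h58.MB.Meas

set_option autoImplicit false

/-!
Turing determinacy implies that a finitely additive set function on a σ-algebra with values in an
arbitrary topological abelian group is countably additive, as soon as it tends to zero along all
disjoint sequences (as is always the case for bounded set functions with values in a Hilbert
space, by a classical argument). By the axiom of choice there are purely finitely additive ones, for example nonprincipal
ultrafilters on the natural numbers. Stated as an explicit reduction to the determinacy of Turing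
invariant sets.
-/

namespace Pool.Agent.Results.MP_917879_lc.ExhaustiveMeasures

open Pool.Agent.H685R3 Filter Topology

/-- `x` and `y` have the same Turing degree (Mathlib's Turing reducibility, for characteristic
functions). -/
def SameDegree (x y : ℕ → Bool) : Prop :=
  TuringReducible (charFn x) (charFn y) ∧ TuringReducible (charFn y) (charFn x)

/-- The set of all `x` such that for some `x'` of the same Turing degree the set `V` contains
infinitely many members of the sequence `Ψ x'`. -/
def Saturation (V : Set (ℕ → Bool)) (Ψ : (ℕ → Bool) → ℕ → ℕ → Bool) : Set (ℕ → Bool) :=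
  {x | ∃ x', SameDegree x' x ∧ ∃ᶠ n in atTop, Ψ x' n ∈ V}

/-- `μ` is additive on pairs of disjoint measurable sets. -/
def FinitelyAdditive {X : Type*} [MeasurableSpace X] {H : Type*} [AddCommGroup H]
    (μ : Set X → H) : Prop :=
  ∀ A B, MeasurableSet A → MeasurableSet B → Disjoint A B → μ (A ∪ B) = μ A + μ B

/-- `E` is a sequence of pairwise disjoint measurable sets. -/
def DisjointSequence {X : Type*} [MeasurableSpace X] (E : ℕ → Set X) : Prop :=
  (∀ n, MeasurableSet (E n)) ∧ ∀ i j, i ≠ j → Disjoint (E i) (E j)

/-- `μ` tends to zero along all sequences of pairwise disjoint measurable sets. -/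
def Exhaustive {X : Type*} [MeasurableSpace X] {H : Type*} [AddCommGroup H] [TopologicalSpace H]
    (μ : Set X → H) : Prop :=
  ∀ E : ℕ → Set X, DisjointSequence E → Tendsto (fun n => μ (E n)) atTop (𝓝 0)

/-- The set of all `x` such that for every `m` there is a set `B ⊆ {n | m ≤ n, x n = 1}` for which
the value of `μ` at the union of the `E n`, `n ∈ B`, is not in `W`. -/
def NotSmall {X : Type*} {H : Type*} (μ : Set X → H) (E : ℕ → Set X) (W : Set H) :
    Set (ℕ → Bool) :=
  {x | ∀ m : ℕ, ∃ B : Set ℕ, (∀ n ∈ B, m ≤ n ∧ x n = true) ∧ μ (⋃ n ∈ B, E n) ∉ W}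

/-- There are Borel maps `Φ σ` (one for every finite binary sequence `σ`) from the Cantor space
to sequences of points of the Cantor space such that for every exhaustive finitely additive set
function `μ` on a σ-algebra with values in a topological abelian group `H` and every disjoint
sequence `E` the Turing saturations of the sets `{x | Φ σ x n ∈ NotSmall μ E W for infinitely many
n}` are Turing invariant, and if they are determined for all neighbourhoods `W` of zero, then the
value of `μ` at the union of the `E n` is the (unconditional) sum of the values at the `E n`. -/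
theorem result.{u, v} :
    ∃ Φ : List Bool → (ℕ → Bool) → ℕ → ℕ → Bool, (∀ σ, Measurable (Φ σ)) ∧
      ∀ (X : Type u) [MeasurableSpace X] (H : Type v) [AddCommGroup H] [TopologicalSpace H]
        [IsTopologicalAddGroup H] (μ : Set X → H), FinitelyAdditive μ → Exhaustive μ →
        ∀ E : ℕ → Set X, DisjointSequence E →
          (∀ W σ, TuringInvariant (Saturation (NotSmall μ E W) (Φ σ))) ∧
          ((∀ W ∈ 𝓝 (0 : H), ∀ σ, Determined (Saturation (NotSmall μ E W) (Φ σ))) →
            HasSum (fun n => μ (E n)) (μ (⋃ n, E n))) := by
  refine ⟨Pool.Agent.W885.TD.cc, Pool.Agent.W885.TD.measurable_cc, ?_⟩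
  intro X _ H _ _ _ μ hμ hx E hE
  have key : ∀ W σ, Saturation (NotSmall μ E W) (Pool.Agent.W885.TD.cc σ) =
      Pool.Agent.W885.TD.sat (Pool.Agent.K9h58.MB.Out (Pool.Agent.K9h58.MB.MD μ E W))
        (Pool.Agent.W885.TD.cc σ) := by
    intro W σ
    have h1 : NotSmall μ E W = Pool.Agent.K9h58.MB.Out (Pool.Agent.K9h58.MB.MD μ E W) := by
      ext x
      simp only [NotSmall, Pool.Agent.K9h58.MB.Out, Pool.Agent.K9h58.MB.MD, Set.mem_ofPred_eq,
        not_exists, not_forall, exists_prop]
    rw [h1]
    ext x
    exact ⟨fun ⟨x', h, h'⟩ => ⟨x', h.1, h.2, h'⟩, fun ⟨x', h1, h2, h'⟩ => ⟨x', ⟨h1, h2⟩, h'⟩⟩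
  refine ⟨fun W σ => ?_, fun h => ?_⟩
  · rw [key]
    exact Pool.Agent.W885.TD.sat_invariant _ _
  · exact Pool.Agent.K9h58.MB.hasSum hμ (fun E h1 h2 => hx E ⟨h1, h2⟩) hE.1 hE.2
      fun W hW σ => by rw [← key]; exact h W hW σ

end Pool.Agent.Results.MP_917879_lc.ExhaustiveMeasures
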