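import Pool.Agent.K9h58.MB.Group

set_option autoImplicit false

/-!
Turing determinacy implies that a homomorphism from a countable product of groups to a linear group
over any field, or to a group with fewer than continuum many elements, has an abelian image on the
product of all but finitely many factors; it is trivial there, if the factors have bounded
commutator width. (By the axiom of choice, an ultraproduct of finite simple groups `PSL(2, p)` is a
nonabelian linear group.) Stated as an explicit reduction to the determinacy of Turing invariant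
sets.
-/

namespace Pool.Agent.Results.MP_917879_lc.GroupProducts

open Pool.Agent.H685R3 Filter

/-- `x` and `y` have the same Turing degree (Mathlib's Turing reducibility, for characteristic
functions). -/
def SameDegree (x y : ℕ → Bool) : Prop :=
  TuringReducible (charFn x) (charFn y) ∧ TuringReducible (charFn y) (charFn x)

/-- The set of all `x` such that for some `x'` of the same Turing degree the set `V` contains
infinitely many members of the sequence `Ψ x'`. -/
def Saturation (V : Set (ℕ → Bool)) (Ψ : (ℕ → Bool) → ℕ → ℕ → Bool) : Set (ℕ → Bool) :=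
  {x | ∃ x', SameDegree x' x ∧ ∃ᶠ n in atTop, Ψ x' n ∈ V}

/-- The set of all `x` such that for every `m` there are elements `a`, `b` of the product, trivial
outside of `{n | m ≤ n, x n = 1}`, whose images under `φ` do not commute. -/
def NonCommuting {G : ℕ → Type*} [∀ n, Group (G n)] {H : Type*} [Group H]
    (φ : (∀ n, G n) →* H) : Set (ℕ → Bool) :=
  {x | ∀ m : ℕ, ∃ a b : ∀ n, G n, (∀ n, (n < m ∨ x n = false) → a n = 1 ∧ b n = 1) ∧
    φ a * φ b ≠ φ b * φ a}

/-- The image of the product of the factors `G n`, `n ≥ m`, is abelian. -/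
def AbelianFrom {G : ℕ → Type*} [∀ n, Group (G n)] {H : Type*} [Group H]
    (φ : (∀ n, G n) →* H) (m : ℕ) : Prop :=
  ∀ a b : ∀ n, G n, (∀ n < m, a n = 1 ∧ b n = 1) → φ a * φ b = φ b * φ a

/-- `H` has elements `f S`, for the sets `S` of natural numbers, and `g j`, for the natural numbers
`j`, such that `f S` and `g j` commute if and only if `j` is not in `S`. -/
def Wild (H : Type*) [Group H] : Prop :=
  ∃ (f : Set ℕ → H) (g : ℕ → H), ∀ (S : Set ℕ) (j : ℕ), f S * g j = g j * f S ↔ j ∉ S

/-- Every element of `G` is a product of `w` commutators. -/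
def Width (w : ℕ) (G : Type*) [Group G] : Prop :=
  ∀ a : G, ∃ x y : Fin w → G, a = (List.ofFn fun i => x i * y i * (x i)⁻¹ * (y i)⁻¹).prod

theorem ab_iff {G : ℕ → Type*} [∀ n, Group (G n)] {H : Type*} [Group H]
    (φ : (∀ n, G n) →* H) (m : ℕ) :
    AbelianFrom φ m ↔ Pool.Agent.K9h58.MB.AbOn φ m Set.univ := by
  constructor
  · intro h a b h1
    exact h a b fun n hn => h1 n (Or.inl hn)
  · intro h a b h1
    refine h a b fun n hn => h1 n ?_
    rcases hn with h2 | h2
    · exact h2
    · exact absurd (Set.mem_univ n) h2

/-- There are Borel maps `Φ σ` (one for every finite binary sequence `σ`) from the Cantor space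
to sequences of points of the Cantor space such that for every homomorphism `φ` from a product of
groups `G 0, G 1, ...` to a group `H` the Turing saturations of the sets
`{x | Φ σ x n ∈ NonCommuting φ for infinitely many n}` are Turing invariant, and if all of them are
determined, then either the image of the product of the `G n`, `n ≥ m`, is abelian for some `m`
(and then `φ` depends on the coordinates below `m` only, if the commutator width of the `G n` is
bounded), or `H` is wild, and then it has at least continuum many elements and does not embed into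
the group of units of a finite-dimensional algebra over a field. -/
theorem result.{u, v} :
    ∃ Φ : List Bool → (ℕ → Bool) → ℕ → ℕ → Bool, (∀ σ, Measurable (Φ σ)) ∧
      ∀ (G : ℕ → Type u) [∀ n, Group (G n)] (H : Type v) [Group H] (φ : (∀ n, G n) →* H),
        (∀ σ, TuringInvariant (Saturation (NonCommuting φ) (Φ σ))) ∧
        ((∀ σ, Determined (Saturation (NonCommuting φ) (Φ σ))) →
          (∃ m, AbelianFrom φ m ∧ ∀ w, (∀ n, Width w (G n)) → ∀ a b : ∀ n, G n,
            (∀ n < m, a n = b n) → φ a = φ b) ∨
          (Wild H ∧ (∃ f : Set ℕ → H, Function.Injective f) ∧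
            ∀ (k R : Type v) [Field k] [Ring R] [Algebra k R] [FiniteDimensional k R]
              (ι : H →* Rˣ), ¬ Function.Injective ι)) := by
  refine ⟨Pool.Agent.W885.TD.cc, Pool.Agent.W885.TD.measurable_cc, ?_⟩
  intro G _ H _ φ
  have key : ∀ σ, Saturation (NonCommuting φ) (Pool.Agent.W885.TD.cc σ) =
      Pool.Agent.W885.TD.sat (Pool.Agent.K9h58.MB.Out (Pool.Agent.K9h58.MB.GD φ))
        (Pool.Agent.W885.TD.cc σ) := by
    intro σ
    have h1 : NonCommuting φ = Pool.Agent.K9h58.MB.Out (Pool.Agent.K9h58.MB.GD φ) := by
      ext x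
      simp only [NonCommuting, Pool.Agent.K9h58.MB.Out, Pool.Agent.K9h58.MB.GD,
        Pool.Agent.K9h58.MB.AbOn, Set.mem_ofPred_eq, not_exists, not_forall, Bool.not_eq_true,
        exists_prop]
    rw [h1]
    ext x
    exact ⟨fun ⟨x', h, h'⟩ => ⟨x', h.1, h.2, h'⟩, fun ⟨x', h1, h2, h'⟩ => ⟨x', ⟨h1, h2⟩, h'⟩⟩
  refine ⟨fun σ => ?_, fun h => ?_⟩
  · rw [key]
    exact Pool.Agent.W885.TD.sat_invariant _ _
  · rcases Pool.Agent.K9h58.MB.dichotomy φ (fun σ => by rw [← key]; exact h σ) with ⟨m, hm⟩ | h1
    · refine Or.inl ⟨m, (ab_iff φ m).2 hm, fun w hw a b hab' => ?_⟩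
      have h1 := Pool.Agent.K9h58.MB.trivial_of_width φ hm hw (a * b⁻¹) fun n hn => by
        simp [hab' n hn]
      rw [map_mul, map_inv] at h1
      exact mul_inv_eq_one.1 h1
    · refine Or.inr ⟨h1, Pool.Agent.K9h58.MB.wild_card h1, fun k R _ _ _ _ ι hι => ?_⟩
      refine Pool.Agent.K9h58.MB.not_wild_units k R ?_
      obtain ⟨f, g, hfg⟩ := h1
      refine ⟨fun S => ι (f S), fun j => ι (g j), fun S j => ?_⟩
      rw [← hfg S j, ← map_mul, ← map_mul]
      exact hι.eq_iff

end Pool.Agent.Results.MP_917879_lc.GroupProducts
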