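import Pool.Agent.W885.TD.Main

set_option autoImplicit false

/-!
Turing determinacy implies the determinacy of all integer games whose payoff set is invariant
under eventually larger moves of player I and eventually smaller moves of player II. (By the axiom
of choice there are undetermined games of this kind, given by nonprincipal ultrafilters.) Stated as
an explicit reduction: to an arbitrary payoff set of this kind we attach one Turing invariant set of
reals, and if it is determined, then one of the players has a winning strategy in the integer game,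
of a very simple form.
-/

namespace Pool.Agent.Results.MP_917879_lc.GrowthGames

open Pool.Agent.H685R3 Filter

/-- `x` and `y` have the same Turing degree (Mathlib's Turing reducibility, for characteristic
functions). -/
def SameDegree (x y : ℕ → Bool) : Prop :=
  TuringReducible (charFn x) (charFn y) ∧ TuringReducible (charFn y) (charFn x)

/-- The Turing saturation of the preimage of `A` under `G`. -/
def Saturation (A : Set (ℕ → ℕ)) (G : (ℕ → Bool) → ℕ → ℕ) : Set (ℕ → Bool) :=
  {x | ∃ x', SameDegree x' x ∧ G x' ∈ A}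

/-- In the game with natural numbers as moves, player I makes the moves at the times `n ∈ P` and
player II the other ones. The payoff set `A` of player I is a growth set if `y ∈ A` for all `x ∈ A`
and all `y` such that for almost all times `y n ≥ x n` if `n ∈ P` and `y n ≤ x n` if `n ∉ P`. -/
def GrowthSet (P : Set ℕ) (A : Set (ℕ → ℕ)) : Prop :=
  ∀ x ∈ A, ∀ y : ℕ → ℕ, (∀ᶠ n in atTop, (n ∈ P → x n ≤ y n) ∧ (n ∉ P → y n ≤ x n)) → y ∈ A

/-- the finite sequence of the moves before time `n` -/
def past (x : ℕ → ℕ) (n : ℕ) : List ℕ := (List.range n).map x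

/-- Player I, who makes the moves at the times in `P`, has a winning strategy. -/
def IWins (P : Set ℕ) (A : Set (ℕ → ℕ)) : Prop :=
  ∃ s : List ℕ → ℕ, ∀ x : ℕ → ℕ, (∀ n ∈ P, x n = s (past x n)) → x ∈ A

/-- Player II, who makes the moves at the times outside of `P`, has a winning strategy. -/
def IIWins (P : Set ℕ) (A : Set (ℕ → ℕ)) : Prop :=
  ∃ s : List ℕ → ℕ, ∀ x : ℕ → ℕ, (∀ n ∉ P, x n = s (past x n)) → x ∉ A

open Classical in
/-- the sum of the moves made at the times in `Q` before time `n` -/
noncomputable def total (Q : Set ℕ) (x : ℕ → ℕ) (n : ℕ) : ℕ :=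
  ∑ i ∈ Finset.range n, if i ∈ Q then x i else 0

theorem total_past (Q : Set ℕ) (x : ℕ → ℕ) (n : ℕ) :
    total Q (fun i => (past x n).getD i 0) n = total Q x n := by
  classical
  unfold total
  refine Finset.sum_congr rfl fun i hi => ?_
  have h := Finset.mem_range.1 hi
  simp [past, h]

/-- the growing sequence which bounds the moves at the times in `Q` -/
noncomputable def bd (Q : Set ℕ) (x : ℕ → ℕ) (n : ℕ) : ℕ := n + total Q x (n + 1)

theorem bd_strictMono (Q : Set ℕ) (x : ℕ → ℕ) : StrictMono (bd Q x) := by
  classical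
  refine strictMono_nat_of_lt_succ fun n => ?_
  unfold bd total
  rw [Finset.sum_range_succ _ (n + 1)]
  omega

theorem le_bd {Q : Set ℕ} (x : ℕ → ℕ) {n : ℕ} (h : n ∈ Q) : x n ≤ bd Q x n := by
  classical
  unfold bd total
  rw [Finset.sum_range_succ, if_pos h]
  omega

theorem bd_eq {Q : Set ℕ} (x : ℕ → ℕ) {n : ℕ} (h : n ∉ Q) : bd Q x n = n + total Q x n := by
  classical
  unfold bd total
  rw [Finset.sum_range_succ, if_neg h, add_zero]

/-- There is a Borel map `G` from the Cantor space to the sequences of natural numbers such that for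
every set `P` of times and every growth set `A` (an arbitrary set of sequences of natural numbers
with this closure property) the Turing saturation of the preimage of `A` under `G` is Turing
invariant, and if it is determined, then the integer game with payoff set `A` is determined. More
precisely, for some function `h`, player I wins by making moves not less than `h (n + t)` at the
times `n ∈ P`, where `t` is the sum of the preceding moves of player II, or player II wins by making
moves not less than `h (n + t)` at the times `n ∉ P`, where `t` is the sum of the preceding moves of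
player I. -/
theorem result :
    ∃ G : (ℕ → Bool) → ℕ → ℕ, Measurable G ∧ ∀ (P : Set ℕ) (A : Set (ℕ → ℕ)), GrowthSet P A →
      TuringInvariant (Saturation A G) ∧
      (Determined (Saturation A G) →
        (IWins P A ∧ ∃ h : ℕ → ℕ, ∀ x, (∀ n ∈ P, h (n + total Pᶜ x n) ≤ x n) → x ∈ A) ∨
        (IIWins P A ∧ ∃ h : ℕ → ℕ, ∀ x, (∀ n ∉ P, h (n + total P x n) ≤ x n) → x ∉ A)) := by
  classical
  refine ⟨fun x k => Pool.Agent.W885.TD.G x k,
    measurable_pi_lambda _ Pool.Agent.W885.TD.measurable_G, fun P A hA => ?_⟩
  have hinv : TuringInvariant (Saturation A fun x k => Pool.Agent.W885.TD.G x k) := by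
    rintro x y h1 h2 ⟨x', ⟨h3, h4⟩, h5⟩
    exact ⟨x', ⟨Pool.Agent.Helper227.TLe.trans h3 h1, Pool.Agent.Helper227.TLe.trans h2 h4⟩, h5⟩
  -- from a growth condition to a strategy
  have strI : (∃ h : ℕ → ℕ, ∀ x, (∀ n ∈ P, h (n + total Pᶜ x n) ≤ x n) → x ∈ A) → IWins P A := by
    rintro ⟨h, hh⟩
    refine ⟨fun l => h (l.length + total Pᶜ (fun i => l.getD i 0) l.length), fun x hx =>
      hh x fun n hn => ?_⟩
    rw [hx n hn]
    have h1 : (past x n).length = n := by simp [past]
    simp only [h1, total_past, le_refl]
  have strII : (∃ h : ℕ → ℕ, ∀ x, (∀ n ∉ P, h (n + total P x n) ≤ x n) → x ∉ A) →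
      IIWins P A := by
    rintro ⟨h, hh⟩
    refine ⟨fun l => h (l.length + total P (fun i => l.getD i 0) l.length), fun x hx =>
      hh x fun n hn => ?_⟩
    rw [hx n hn]
    have h1 : (past x n).length = n := by simp [past]
    simp only [h1, total_past, le_refl]
  refine ⟨hinv, ?_⟩
  rintro (hw | hw)
  · obtain ⟨z, hz⟩ := Pool.Agent.H685R3.cone_of_wins (b := 0) (by omega) hinv hw
    obtain ⟨h, hh⟩ := Pool.Agent.W885.TD.control z
    left
    have key : ∃ h : ℕ → ℕ, ∀ x, (∀ n ∈ P, h (n + total Pᶜ x n) ≤ x n) → x ∈ A := by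
      refine ⟨h, fun x hx => ?_⟩
      obtain ⟨y, hy, hy'⟩ := hh (bd Pᶜ x) (bd_strictMono _ x)
      obtain ⟨y₁, ⟨h1, h2⟩, h3⟩ := hz y hy
      obtain ⟨k₀, hk⟩ := hy' y₁ h2 h1
      refine hA _ h3 x ?_
      filter_upwards [eventually_ge_atTop k₀] with n hn
      obtain ⟨h4, h5⟩ := hk n hn
      refine ⟨fun hP => ?_, fun hP => ?_⟩
      · refine h5.trans ?_
        rw [bd_eq x (Set.notMem_compl_iff.2 hP)]
        exact hx n hP
      · exact (le_bd x hP).trans h4
    exact ⟨strI key, key⟩
  · obtain ⟨z, hz⟩ := Pool.Agent.H685R3.cone_of_wins (b := 1) (by omega)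
      (Pool.Agent.W885.TD.compl_invariant hinv) hw
    obtain ⟨h, hh⟩ := Pool.Agent.W885.TD.control z
    right
    have key : ∃ h : ℕ → ℕ, ∀ x, (∀ n ∉ P, h (n + total P x n) ≤ x n) → x ∉ A := by
      refine ⟨h, fun x hx hxA => ?_⟩
      obtain ⟨y, hy, hy'⟩ := hh (bd P x) (bd_strictMono _ x)
      obtain ⟨k₀, hk⟩ := hy' y (Pool.Agent.Helper227.TLe.refl y) (Pool.Agent.Helper227.TLe.refl y)
      refine hz y hy ⟨y, ⟨Pool.Agent.Helper227.TLe.refl y, Pool.Agent.Helper227.TLe.refl y⟩, ?_⟩
      refine hA _ hxA _ ?_
      filter_upwards [eventually_ge_atTop k₀] with n hn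
      obtain ⟨h4, h5⟩ := hk n hn
      refine ⟨fun hP => (le_bd x hP).trans h4, fun hP => ?_⟩
      refine h5.trans ?_
      rw [bd_eq x hP]
      exact hx n hP
    exact ⟨strII key, key⟩

end Pool.Agent.Results.MP_917879_lc.GrowthGames
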