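import Pool.Agent.K9h58.VT.Pair

/-!
# The axiom of determinacy and Thompson's interval group

`WinsI A` and `WinsII A` say that player I, respectively player II, has a winning strategy in the
Gale-Stewart game with payoff set `A` (`Pool/Agent/H685R3/KDefs.lean`).

The positions of a play are rearranged by permutations `π` of `ω`: `x` becomes `x ∘ π`. The two
permutations `fa` and `fb` (`Pool/Agent/Y588/VT/Defs.lean`) generate a copy of Thompson's interval
group, and `IntervalInvariant A` says that `A` is closed under them and their inverses. The two
permutations `quarter` and `third` (`Pool/Agent/Y588/TC/Defs.lean`) generate a copy of Thompson's
circle group, and `CircleInvariant A` says that `A` is closed under them and their inverses. The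
circle group contains the interval group, as the stabilizer of a point.

Turing determinacy is equivalent to the determinacy of all circle invariant sets (this is the
starting file `ThompsonCircle`). The theorem below says that `AD` is equivalent to the determinacy
of all interval invariant sets, and in fact to the determinacy of a much smaller class of sets.

`Voting col A` is the voting set of `A`: the votes for the move number `k` are cast at the
positions `col k 0`, `col k 1`, `col k 2`, …, which are positions of the player who makes this
move; the move is settled if almost all votes for it are equal; and `Voting col A` consists of the
plays in which all moves are settled and form a play in `A`, or else the first move which is not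
settled is a move of player II. It is closed under changes of finitely many bits in every column
(`ColumnInvariant`), and under the rearrangements by all permutations which, together with their
inverses, map almost all of every column into itself (`ShuffleInvariant`); `fa` and `fb` are such
permutations.

`PairInvariant A` (`Pool/Agent/Y588/PD/Defs.lean`) says that `x ∈ A` depends only on the Turing
degree of the sequence of the moves of player I and the Turing degree of the sequence of the moves
of player II. The determinacy of all pair invariant sets is equivalent to `AD` as well (starting
files). By part 2, a set is Turing invariant if and only if it is both pair invariant and interval
invariant. So Turing determinacy is `AD` for the sets with both of these invariance properties,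
each of which alone is no restriction.
-/

set_option autoImplicit false

namespace Pool.Agent.Results.MP_917879_lc.ThompsonInterval

open Pool.Agent.H685R3 Pool.Agent.Y588.VT Pool.Agent.Y588.TC Pool.Agent.K9h58.VT
open Pool.Agent.Y588.PD (PairInvariant)

theorem result :
    -- 1. every game is equivalent to a game with an interval invariant payoff set
    (∀ A : Set (ℕ → Bool), ColumnInvariant (Voting col A) ∧ ShuffleInvariant (Voting col A) ∧
      IntervalInvariant (Voting col A) ∧ (WinsI (Voting col A) ↔ WinsI A) ∧
      (WinsII (Voting col A) ↔ WinsII A)) ∧
    -- 2. comparison with Turing invariance
    (∀ A : Set (ℕ → Bool), (CircleInvariant A → IntervalInvariant A) ∧
      (TuringInvariant A ↔ PairInvariant A ∧ IntervalInvariant A)) :=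
  ⟨fun A => ⟨columnInvariant_voting A, shuffleInvariant_voting A,
      (shuffleInvariant_voting A).interval, winsI_voting A, winsII_voting A⟩,
    fun A => ⟨interval_of_circle, turing_iff A⟩⟩

end Pool.Agent.Results.MP_917879_lc.ThompsonInterval
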